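import Pool.Agent.Helper60.KS.St

/-! Project KS, module KC-4: large values by Halász-Montgomery-Huxley. -/

set_option autoImplicit false
open Filter Topology MeasureTheory
open scoped Classical

namespace Pool.Agent.Helper72.KC

open Pool.Agent.Helper60.KS

/-! ### exponential sums -/

theorem conj_natCast_cpow (n : ℕ) (s : ℂ) :
    (starRingEnd ℂ) ((n : ℂ) ^ s) = (n : ℂ) ^ ((starRingEnd ℂ) s) := by
  have h := Complex.cpow_conj (n : ℂ) s (by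
    rw [Complex.natCast_arg]
    exact Real.pi_pos.ne)
  rw [Complex.conj_natCast] at h
  exact h.symm

theorem block_le {C : ℝ} (hC : ∀ (N N1 : ℕ) (t κ : ℝ), 1 ≤ N → N < N1 → N1 ≤ 2 * N → 1 ≤ t →
    0 ≤ κ → κ ≤ 1 → ‖∑ n ∈ Finset.Ioc N N1, (n : ℂ) ^ (-((κ : ℂ) + t * Complex.I))‖ ≤
      C * (N : ℝ) ^ (-κ) * (N / t + Real.sqrt t)) (hC0 : 0 < C)
    (Q : ℕ) (hQ : 1 ≤ Q) (t κ : ℝ) (ht : 1 ≤ t) (hκ : 0 ≤ κ) (hκ1 : κ ≤ 1) (h : ℕ) :
    ‖∑ n ∈ Finset.Ioc Q ((h + 1) * Q), (n : ℂ) ^ (-((κ : ℂ) + t * Complex.I))‖ ≤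
      C * h * (h * Q / t + Real.sqrt t) := by
  induction h with
  | zero => simp
  | succ h ih =>
    have hst : Real.sqrt t ≥ 0 := Real.sqrt_nonneg t
    have h1 : Q ≤ (h + 1) * Q := Nat.le_mul_of_pos_left Q (Nat.succ_pos h)
    have h2 : (h + 1) * Q ≤ (h + 1 + 1) * Q := Nat.mul_le_mul_right Q (Nat.le_succ _)
    rw [← Finset.sum_Ioc_consecutive _ h1 h2]
    refine (norm_add_le _ _).trans ?_
    have h3 := hC ((h + 1) * Q) ((h + 1 + 1) * Q) t κ (Nat.one_le_iff_ne_zero.2 (by positivity))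
      (by nlinarith) (by nlinarith) ht hκ hκ1
    have hN1 : (1 : ℝ) ≤ (((h + 1) * Q : ℕ) : ℝ) := by
      exact_mod_cast Nat.one_le_iff_ne_zero.2 (show (h + 1) * Q ≠ 0 by positivity)
    have h4 : (((h + 1) * Q : ℕ) : ℝ) ^ (-κ) ≤ 1 :=
      Real.rpow_le_one_of_one_le_of_nonpos hN1 (by linarith)
    have h5 : C * (((h + 1) * Q : ℕ) : ℝ) ^ (-κ) * ((((h + 1) * Q : ℕ) : ℝ) / t + Real.sqrt t) ≤
        C * ((((h + 1) * Q : ℕ) : ℝ) / t + Real.sqrt t) := by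
      have h6 : 0 ≤ (((h + 1) * Q : ℕ) : ℝ) / t + Real.sqrt t := by positivity
      have h7 : C * (((h + 1) * Q : ℕ) : ℝ) ^ (-κ) ≤ C * 1 := mul_le_mul_of_nonneg_left h4 hC0.le
      calc _ ≤ C * 1 * ((((h + 1) * Q : ℕ) : ℝ) / t + Real.sqrt t) :=
            mul_le_mul_of_nonneg_right h7 h6
        _ = _ := by ring
    have h8 := add_le_add ih (h3.trans h5)
    refine h8.trans ?_
    push_cast
    have ht0 : 0 < t := by linarith
    have h9 : 0 ≤ C * (h : ℝ) * (Q / t) := by positivity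
    have h10 : C * (h : ℝ) * (h * Q / t + Real.sqrt t) + C * (((h : ℝ) + 1) * Q / t + Real.sqrt t) =
        C * ((h : ℝ) + 1) * (((h : ℝ) + 1) * Q / t + Real.sqrt t) - C * (h : ℝ) * (Q / t) := by
      field_simp
      ring
    linarith

theorem expsum_bound (hA2 : A2) : ∃ C : ℝ, 0 < C ∧ ∀ (h Q : ℕ) (τ κ : ℝ), 1 ≤ h → 1 ≤ Q →
    1 ≤ |τ| → 0 ≤ κ → κ ≤ 1 →
    ‖∑ n ∈ Finset.Ioc Q (h * Q), (n : ℂ) ^ (-((κ : ℂ) + τ * Complex.I))‖ ≤
      C * h * (h * Q / |τ| + Real.sqrt |τ|) := by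
  obtain ⟨C, hC0, hC⟩ := hA2
  refine ⟨C, hC0, fun h Q τ κ hh hQ hτ hκ hκ1 => ?_⟩
  obtain ⟨k, rfl⟩ : ∃ k, h = k + 1 := ⟨h - 1, by omega⟩
  have hpos : ∀ t : ℝ, 1 ≤ t →
      ‖∑ n ∈ Finset.Ioc Q ((k + 1) * Q), (n : ℂ) ^ (-((κ : ℂ) + t * Complex.I))‖ ≤
      C * ((k + 1 : ℕ) : ℝ) * (((k + 1 : ℕ) : ℝ) * Q / t + Real.sqrt t) := by
    intro t ht
    have h1 := block_le hC hC0 Q hQ t κ ht hκ hκ1 k
    refine h1.trans ?_
    have ht0 : 0 < t := by linarith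
    have h2 : (k : ℝ) ≤ ((k + 1 : ℕ) : ℝ) := by push_cast; linarith
    gcongr
  rcases le_total 0 τ with h0 | h0
  · rw [abs_of_nonneg h0] at hτ ⊢
    exact hpos τ hτ
  · rw [abs_of_nonpos h0] at hτ ⊢
    have h1 := hpos (-τ) hτ
    have h2 : ‖∑ n ∈ Finset.Ioc Q ((k + 1) * Q), (n : ℂ) ^ (-((κ : ℂ) + τ * Complex.I))‖ =
        ‖∑ n ∈ Finset.Ioc Q ((k + 1) * Q), (n : ℂ) ^ (-((κ : ℂ) + ((-τ : ℝ) : ℂ) * Complex.I))‖ := by
      rw [← Complex.norm_conj, map_sum]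
      congr 1
      refine Finset.sum_congr rfl fun n _ => ?_
      rw [conj_natCast_cpow]
      congr 1
      simp
    rw [h2]
    exact h1

/-! ### spaced heights -/

theorem half_sum (S : Finset ℝ) (M : ℕ) (h1 : ∀ x ∈ S, 1 ≤ x ∧ x < M + 1)
    (h2 : ∀ x ∈ S, ∀ y ∈ S, x ≠ y → 1 ≤ |x - y|) :
    ∑ x ∈ S, 1 / x ≤ 1 + Real.log M := by
  have h3 : ∀ x ∈ S, 1 / x ≤ 1 / ((⌊x⌋₊ : ℕ) : ℝ) := by
    intro x hx
    have h4 := (h1 x hx).1
    have h5 : 1 ≤ ⌊x⌋₊ := Nat.one_le_floor_iff x |>.2 h4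
    have h6 : (1 : ℝ) ≤ ((⌊x⌋₊ : ℕ) : ℝ) := by exact_mod_cast h5
    exact one_div_le_one_div_of_le (by linarith) (Nat.floor_le (by linarith))
  have hinj : Set.InjOn (fun x : ℝ => ⌊x⌋₊) (S : Set ℝ) := by
    intro x hx y hy hxy
    by_contra hne
    have h4 := h2 x hx y hy hne
    have hx1 := (h1 x hx).1
    have hy1 := (h1 y hy).1
    have a1 := Nat.floor_le (show 0 ≤ x by linarith)
    have a2 := Nat.lt_floor_add_one x
    have b1 := Nat.floor_le (show 0 ≤ y by linarith)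
    have b2 := Nat.lt_floor_add_one y
    simp only at hxy
    rw [hxy] at a1 a2
    have h5 : |x - y| < 1 := by
      rw [abs_lt]; constructor <;> linarith
    linarith
  calc ∑ x ∈ S, 1 / x ≤ ∑ x ∈ S, 1 / ((⌊x⌋₊ : ℕ) : ℝ) := Finset.sum_le_sum h3
    _ = ∑ k ∈ S.image (fun x => ⌊x⌋₊), 1 / (k : ℝ) := by rw [Finset.sum_image hinj]
    _ ≤ ∑ k ∈ Finset.Icc 1 M, 1 / (k : ℝ) := by
        refine Finset.sum_le_sum_of_subset_of_nonneg ?_ fun i _ _ => by positivity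
        intro k hk
        obtain ⟨x, hx, rfl⟩ := Finset.mem_image.1 hk
        have h4 := h1 x hx
        rw [Finset.mem_Icc]
        refine ⟨Nat.one_le_floor_iff x |>.2 h4.1, ?_⟩
        have h5 : ⌊x⌋₊ < M + 1 := by
          rw [Nat.floor_lt (by linarith)]
          push_cast
          exact h4.2
        omega
    _ = ((harmonic M : ℚ) : ℝ) := by
        rw [harmonic_eq_sum_Icc]
        push_cast
        refine Finset.sum_congr rfl fun i _ => by simp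
    _ ≤ 1 + Real.log M := harmonic_le_one_add_log M

theorem spaced_sum (Z : Finset ℂ) (T : ℝ) (hT : 1 ≤ T) (hZ : Spaced1 Z)
    (hZT : ∀ ρ ∈ Z, |ρ.im| ≤ T) (ρ : ℂ) (hρ : ρ ∈ Z) :
    ∑ ρ' ∈ Z.erase ρ, 1 / |ρ.im - ρ'.im| ≤ 2 + 2 * Real.log (2 * T + 1) := by
  obtain ⟨M, hM1, hM2⟩ : ∃ M : ℕ, (M : ℝ) ≤ 2 * T + 1 ∧ 2 * T < M + 1 :=
    ⟨⌊2 * T⌋₊, by linarith [Nat.floor_le (show 0 ≤ 2 * T by linarith)], Nat.lt_floor_add_one _⟩
  have hM0 : (0 : ℝ) < M := by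
    by_contra h0
    have : (M : ℝ) = 0 := le_antisymm (not_lt.1 h0) (Nat.cast_nonneg M)
    rw [this] at hM2
    linarith
  have hlog : Real.log M ≤ Real.log (2 * T + 1) := Real.log_le_log hM0 hM1
  have key : ∀ e : ℝ, (e = 1 ∨ e = -1) →
      ∑ ρ' ∈ (Z.erase ρ).filter (fun ρ' => 0 < e * (ρ.im - ρ'.im)), 1 / |ρ.im - ρ'.im| ≤
        1 + Real.log M := by
    intro e he
    have he2 : |e| = 1 := by rcases he with rfl | rfl <;> simp
    have hinj : Set.InjOn (fun ρ' : ℂ => |ρ.im - ρ'.im|)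
        (((Z.erase ρ).filter (fun ρ' => 0 < e * (ρ.im - ρ'.im)) : Finset ℂ) : Set ℂ) := by
      intro x hx y hy hxy
      rw [Finset.mem_coe, Finset.mem_filter, Finset.mem_erase] at hx hy
      simp only at hxy
      by_contra hne
      have h1 := hZ x hx.1.2 y hy.1.2 hne
      have h2 : x.im = y.im := by
        rcases he with rfl | rfl
        · have := hx.2; have := hy.2
          rw [abs_of_pos (by linarith), abs_of_pos (by linarith)] at hxy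
          linarith
        · have := hx.2; have := hy.2
          rw [abs_of_neg (by linarith), abs_of_neg (by linarith)] at hxy
          linarith
      rw [h2] at h1
      simp at h1
      linarith
    rw [← Finset.sum_image (f := fun x : ℝ => 1 / x) hinj]
    refine half_sum _ M ?_ ?_
    · intro x hx
      obtain ⟨ρ', hρ', rfl⟩ := Finset.mem_image.1 hx
      rw [Finset.mem_filter, Finset.mem_erase] at hρ'
      refine ⟨hZ ρ hρ ρ' hρ'.1.2 (Ne.symm hρ'.1.1), ?_⟩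
      have a := hZT ρ hρ
      have b := hZT ρ' hρ'.1.2
      have c := abs_sub ρ.im ρ'.im
      linarith
    · intro x hx y hy hxy
      obtain ⟨a, ha, rfl⟩ := Finset.mem_image.1 hx
      obtain ⟨b, hb, rfl⟩ := Finset.mem_image.1 hy
      rw [Finset.mem_filter, Finset.mem_erase] at ha hb
      have hab : a ≠ b := by
        rintro rfl
        exact hxy rfl
      have h1 := hZ a ha.1.2 b hb.1.2 hab
      have h2 : |(|ρ.im - a.im| - |ρ.im - b.im|)| = |a.im - b.im| := by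
        rcases he with rfl | rfl
        · have := ha.2; have := hb.2
          rw [abs_of_pos (show 0 < ρ.im - a.im by linarith),
            abs_of_pos (show 0 < ρ.im - b.im by linarith), abs_sub_comm a.im]
          congr 1
          ring
        · have := ha.2; have := hb.2
          rw [abs_of_neg (show ρ.im - a.im < 0 by linarith),
            abs_of_neg (show ρ.im - b.im < 0 by linarith)]
          congr 1
          ring
      rw [h2]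
      exact h1
  have hsplit : ∑ ρ' ∈ Z.erase ρ, 1 / |ρ.im - ρ'.im| =
      ∑ ρ' ∈ (Z.erase ρ).filter (fun ρ' => 0 < (1 : ℝ) * (ρ.im - ρ'.im)), 1 / |ρ.im - ρ'.im| +
      ∑ ρ' ∈ (Z.erase ρ).filter (fun ρ' => 0 < (-1 : ℝ) * (ρ.im - ρ'.im)), 1 / |ρ.im - ρ'.im| := by
    rw [← Finset.sum_filter_add_sum_filter_not (Z.erase ρ)
      (fun ρ' => 0 < (1 : ℝ) * (ρ.im - ρ'.im))]
    congr 1
    refine Finset.sum_congr ?_ fun _ _ => rfl
    ext ρ'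
    rw [Finset.mem_filter, Finset.mem_filter]
    constructor
    · rintro ⟨h1, h2⟩
      refine ⟨h1, ?_⟩
      rw [Finset.mem_erase] at h1
      have h3 := hZ ρ hρ ρ' h1.2 (Ne.symm h1.1)
      rcases lt_trichotomy (ρ.im - ρ'.im) 0 with h | h | h
      · linarith
      · rw [h] at h3; simp at h3; linarith
      · exact absurd (by linarith) h2
    · rintro ⟨h1, h2⟩
      exact ⟨h1, by linarith⟩
  rw [hsplit]
  have k1 := key 1 (Or.inl rfl)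
  have k2 := key (-1) (Or.inr rfl)
  linarith

/-! ### the quadratic form -/

theorem abs_sum_sq (Z : Finset ℂ) (g : ℕ → ℂ) (Q h : ℕ) (B b : ℝ) (hQ : 1 ≤ Q) (hb : 0 ≤ b)
    (hg : ∀ n, ‖g n‖ ≤ B) (η : ℂ → ℂ) (hη : ∀ ρ, ‖η ρ‖ ≤ 1) :
    ‖∑ ρ ∈ Z, η ρ * DP g Q h ρ‖ ^ 2 ≤ (B ^ 2 * h * (Q : ℝ) ^ (1 - 2 * b)) *
      ∑ ρ ∈ Z, ∑ ρ' ∈ Z, ‖∑ n ∈ Finset.Ioc Q (h * Q),
        (n : ℂ) ^ (-(((ρ.re + ρ'.re - 2 * b : ℝ) : ℂ) + ((ρ.im - ρ'.im : ℝ) : ℂ) * Complex.I))‖ := by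
  have hB : 0 ≤ B := (norm_nonneg _).trans (hg 0)
  have hQ0 : (0 : ℝ) < Q := by exact_mod_cast hQ
  have hnpos : ∀ n ∈ Finset.Ioc Q (h * Q), 0 < n := fun n hn => by
    have := (Finset.mem_Ioc.1 hn).1
    omega
  -- exchange of sums
  have h1 : ∑ ρ ∈ Z, η ρ * DP g Q h ρ = ∑ n ∈ Finset.Ioc Q (h * Q),
      (g n * (n : ℂ) ^ (-(b : ℂ))) * ∑ ρ ∈ Z, η ρ * (n : ℂ) ^ ((b : ℂ) - ρ) := by
    simp only [DP, Finset.mul_sum]
    rw [Finset.sum_comm]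
    refine Finset.sum_congr rfl fun n hn => ?_
    refine Finset.sum_congr rfl fun ρ _ => ?_
    have hn0 : (n : ℂ) ≠ 0 := by exact_mod_cast (hnpos n hn).ne'
    have h2 : (n : ℂ) ^ (-ρ) = (n : ℂ) ^ (-(b : ℂ)) * (n : ℂ) ^ ((b : ℂ) - ρ) := by
      rw [← Complex.cpow_add _ _ hn0]
      congr 1
      ring
    rw [h2]
    ring
  rw [h1]
  have h2 : ‖∑ n ∈ Finset.Ioc Q (h * Q),
      (g n * (n : ℂ) ^ (-(b : ℂ))) * ∑ ρ ∈ Z, η ρ * (n : ℂ) ^ ((b : ℂ) - ρ)‖ ≤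
      ∑ n ∈ Finset.Ioc Q (h * Q), ‖g n * (n : ℂ) ^ (-(b : ℂ))‖ *
        ‖∑ ρ ∈ Z, η ρ * (n : ℂ) ^ ((b : ℂ) - ρ)‖ := by
    refine (norm_sum_le _ _).trans (Finset.sum_le_sum fun n _ => ?_)
    rw [norm_mul]
  have h3 : (∑ n ∈ Finset.Ioc Q (h * Q), ‖g n * (n : ℂ) ^ (-(b : ℂ))‖ *
        ‖∑ ρ ∈ Z, η ρ * (n : ℂ) ^ ((b : ℂ) - ρ)‖) ^ 2 ≤
      (∑ n ∈ Finset.Ioc Q (h * Q), ‖g n * (n : ℂ) ^ (-(b : ℂ))‖ ^ 2) *
      ∑ n ∈ Finset.Ioc Q (h * Q), ‖∑ ρ ∈ Z, η ρ * (n : ℂ) ^ ((b : ℂ) - ρ)‖ ^ 2 :=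
    Finset.sum_mul_sq_le_sq_mul_sq _ _ _
  have h4 : ∑ n ∈ Finset.Ioc Q (h * Q), ‖g n * (n : ℂ) ^ (-(b : ℂ))‖ ^ 2 ≤
      B ^ 2 * h * (Q : ℝ) ^ (1 - 2 * b) := by
    have h5 : ∀ n ∈ Finset.Ioc Q (h * Q), ‖g n * (n : ℂ) ^ (-(b : ℂ))‖ ^ 2 ≤
        B ^ 2 * (Q : ℝ) ^ (-2 * b) := by
      intro n hn
      have hn0 : (0 : ℝ) < n := by exact_mod_cast hnpos n hn
      have hnQ : (Q : ℝ) ≤ n := by exact_mod_cast (Finset.mem_Ioc.1 hn).1.le
      rw [norm_mul, mul_pow]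
      have h6 : ‖(n : ℂ) ^ (-(b : ℂ))‖ = (n : ℝ) ^ (-b) := by
        have := Complex.norm_cpow_eq_rpow_re_of_pos hn0 (-(b : ℂ))
        simpa using this
      rw [h6, ← Real.rpow_natCast ((n : ℝ) ^ (-b)) 2, ← Real.rpow_mul hn0.le]
      have h7 : (n : ℝ) ^ (-b * ((2 : ℕ) : ℝ)) ≤ (Q : ℝ) ^ (-2 * b) := by
        have h8 : -b * ((2 : ℕ) : ℝ) = -2 * b := by push_cast; ring
        rw [h8]
        exact Real.rpow_le_rpow_of_nonpos hQ0 hnQ (by linarith)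
      have h9 : ‖g n‖ ^ 2 ≤ B ^ 2 := pow_le_pow_left₀ (norm_nonneg _) (hg n) 2
      exact mul_le_mul h9 h7 (by positivity) (by positivity)
    refine (Finset.sum_le_sum h5).trans ?_
    rw [Finset.sum_const, Nat.card_Ioc, nsmul_eq_mul]
    have h10 : ((h * Q - Q : ℕ) : ℝ) ≤ (h : ℝ) * Q := by
      have : h * Q - Q ≤ h * Q := Nat.sub_le _ _
      exact_mod_cast this
    have h11 : (Q : ℝ) ^ (1 - 2 * b) = Q * (Q : ℝ) ^ (-2 * b) := by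
      rw [show (1 - 2 * b) = 1 + (-2 * b) by ring, Real.rpow_add hQ0, Real.rpow_one]
    rw [h11]
    calc ((h * Q - Q : ℕ) : ℝ) * (B ^ 2 * (Q : ℝ) ^ (-2 * b)) ≤
          ((h : ℝ) * Q) * (B ^ 2 * (Q : ℝ) ^ (-2 * b)) :=
          mul_le_mul_of_nonneg_right h10 (by positivity)
      _ = _ := by ring
  have h5 : ∑ n ∈ Finset.Ioc Q (h * Q), ‖∑ ρ ∈ Z, η ρ * (n : ℂ) ^ ((b : ℂ) - ρ)‖ ^ 2 ≤
      ∑ ρ ∈ Z, ∑ ρ' ∈ Z, ‖∑ n ∈ Finset.Ioc Q (h * Q),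
        (n : ℂ) ^ (-(((ρ.re + ρ'.re - 2 * b : ℝ) : ℂ) +
          ((ρ.im - ρ'.im : ℝ) : ℂ) * Complex.I))‖ := by
    have h6 : ((∑ n ∈ Finset.Ioc Q (h * Q), ‖∑ ρ ∈ Z, η ρ * (n : ℂ) ^ ((b : ℂ) - ρ)‖ ^ 2 : ℝ) : ℂ) =
        ∑ ρ ∈ Z, ∑ ρ' ∈ Z, (η ρ * (starRingEnd ℂ) (η ρ')) * ∑ n ∈ Finset.Ioc Q (h * Q),
        (n : ℂ) ^ (-(((ρ.re + ρ'.re - 2 * b : ℝ) : ℂ) +
          ((ρ.im - ρ'.im : ℝ) : ℂ) * Complex.I)) := by
      have h7 : ∀ n ∈ Finset.Ioc Q (h * Q),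
          ((‖∑ ρ ∈ Z, η ρ * (n : ℂ) ^ ((b : ℂ) - ρ)‖ ^ 2 : ℝ) : ℂ) =
          ∑ ρ ∈ Z, ∑ ρ' ∈ Z, (η ρ * (starRingEnd ℂ) (η ρ')) *
            (n : ℂ) ^ (-(((ρ.re + ρ'.re - 2 * b : ℝ) : ℂ) +
          ((ρ.im - ρ'.im : ℝ) : ℂ) * Complex.I)) := by
        intro n hn
        have hn0 : (n : ℂ) ≠ 0 := by exact_mod_cast (hnpos n hn).ne'
        push_cast
        rw [← Complex.mul_conj', map_sum, Finset.sum_mul_sum]
        refine Finset.sum_congr rfl fun ρ _ => Finset.sum_congr rfl fun ρ' _ => ?_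
        rw [map_mul, conj_natCast_cpow]
        have h8 : (n : ℂ) ^ (-(((ρ.re : ℂ) + (ρ'.re : ℂ) - 2 * (b : ℂ)) +
            ((ρ.im : ℂ) - (ρ'.im : ℂ)) * Complex.I)) =
            (n : ℂ) ^ ((b : ℂ) - ρ) * (n : ℂ) ^ ((starRingEnd ℂ) ((b : ℂ) - ρ')) := by
          rw [← Complex.cpow_add _ _ hn0]
          congr 1
          apply Complex.ext
          · simp
            ring
          · simp
            ring
        rw [h8]
        ring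
      rw [Complex.ofReal_sum, Finset.sum_congr rfl h7, Finset.sum_comm]
      refine Finset.sum_congr rfl fun ρ _ => ?_
      rw [Finset.sum_comm]
      refine Finset.sum_congr rfl fun ρ' _ => ?_
      rw [Finset.mul_sum]
    have h7 : 0 ≤ ∑ n ∈ Finset.Ioc Q (h * Q), ‖∑ ρ ∈ Z, η ρ * (n : ℂ) ^ ((b : ℂ) - ρ)‖ ^ 2 :=
      Finset.sum_nonneg fun _ _ => by positivity
    have h8 := congrArg norm h6
    rw [Complex.norm_real, Real.norm_of_nonneg h7] at h8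
    rw [h8]
    refine (norm_sum_le _ _).trans (Finset.sum_le_sum fun ρ _ => ?_)
    refine (norm_sum_le _ _).trans (Finset.sum_le_sum fun ρ' _ => ?_)
    rw [norm_mul, norm_mul, Complex.norm_conj]
    have h9 : ‖η ρ‖ * ‖η ρ'‖ ≤ 1 := mul_le_one₀ (hη ρ) (norm_nonneg _) (hη ρ')
    calc _ ≤ 1 * _ := mul_le_mul_of_nonneg_right h9 (norm_nonneg _)
      _ = _ := one_mul _
  calc ‖∑ n ∈ Finset.Ioc Q (h * Q),
      (g n * (n : ℂ) ^ (-(b : ℂ))) * ∑ ρ ∈ Z, η ρ * (n : ℂ) ^ ((b : ℂ) - ρ)‖ ^ 2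
      ≤ (∑ n ∈ Finset.Ioc Q (h * Q), ‖g n * (n : ℂ) ^ (-(b : ℂ))‖ *
        ‖∑ ρ ∈ Z, η ρ * (n : ℂ) ^ ((b : ℂ) - ρ)‖) ^ 2 := pow_le_pow_left₀ (norm_nonneg _) h2 2
    _ ≤ _ := h3
    _ ≤ _ := mul_le_mul h4 h5 (Finset.sum_nonneg fun _ _ => by positivity)
        (by positivity)

/-! ### one window -/

theorem window {C : ℝ} (hC0 : 0 < C) (hC : ∀ (h Q : ℕ) (τ κ : ℝ), 1 ≤ h → 1 ≤ Q →
    1 ≤ |τ| → 0 ≤ κ → κ ≤ 1 →
    ‖∑ n ∈ Finset.Ioc Q (h * Q), (n : ℂ) ^ (-((κ : ℂ) + τ * Complex.I))‖ ≤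
      C * h * (h * Q / |τ| + Real.sqrt |τ|))
    (h : ℕ) (hh : 1 ≤ h) (Z : Finset ℂ) (g : ℕ → ℂ) (Q : ℕ) (B V b b' T W : ℝ) (hQ : 1 ≤ Q)
    (hT : 1 ≤ T) (hb : 0 ≤ b) (hb1 : b' ≤ b + 1 / 2) (hV : 0 < V)
    (hg : ∀ n, ‖g n‖ ≤ B) (hZs : InStrip Z b b' T) (hZ : Spaced1 Z)
    (hZV : ∀ ρ ∈ Z, V ≤ ‖DP g Q h ρ‖)
    (hW : ∀ ρ ∈ Z, ∀ ρ' ∈ Z, |ρ.im - ρ'.im| ≤ W)
    (hWV : (B ^ 2 * h * (Q : ℝ) ^ (1 - 2 * b)) * (C * h * Real.sqrt W) ≤ V ^ 2 / 2) :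
    (Z.card : ℝ) ≤ 2 * h ^ 2 * (1 + 6 * C * h) * (B ^ 2 * (Q : ℝ) ^ (2 - 2 * b) / V ^ 2) *
      Real.log (T + 2) := by
  have hQ0 : (0 : ℝ) < Q := by exact_mod_cast hQ
  have hh0 : (1 : ℝ) ≤ h := by exact_mod_cast hh
  have hlog3 : 1 ≤ Real.log (T + 2) := by
    rw [Real.le_log_iff_exp_le (by linarith)]
    have := Real.exp_one_lt_d9
    linarith
  set K : ℝ := B ^ 2 * h * (Q : ℝ) ^ (1 - 2 * b) with hK
  have hK0 : 0 ≤ K := by positivity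
  by_cases hZ0 : Z.card = 0
  · rw [hZ0]
    have : 0 ≤ Real.log (T + 2) := by linarith
    push_cast
    positivity
  have hZpos : (0 : ℝ) < Z.card := by exact_mod_cast Nat.pos_of_ne_zero hZ0
  -- unimodular weights
  set η : ℂ → ℂ := fun ρ => (starRingEnd ℂ) (DP g Q h ρ) / (‖DP g Q h ρ‖ : ℂ) with hη
  have hη1 : ∀ ρ, ‖η ρ‖ ≤ 1 := by
    intro ρ
    simp only [hη]
    rw [norm_div, Complex.norm_conj, Complex.norm_real, norm_norm]
    exact div_self_le_one _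
  have hηDP : ∀ ρ, η ρ * DP g Q h ρ = ((‖DP g Q h ρ‖ : ℝ) : ℂ) := by
    intro ρ
    simp only [hη]
    by_cases h0 : DP g Q h ρ = 0
    · simp [h0]
    · have h1 : (‖DP g Q h ρ‖ : ℂ) ≠ 0 := by
        exact_mod_cast norm_ne_zero_iff.2 h0
      rw [div_mul_eq_mul_div, div_eq_iff h1, Complex.conj_mul']
      ring
  have h1 := abs_sum_sq Z g Q h B b hQ hb hg η hη1
  have h2 : (Z.card * V) ^ 2 ≤ ‖∑ ρ ∈ Z, η ρ * DP g Q h ρ‖ ^ 2 := by
    refine pow_le_pow_left₀ (by positivity) ?_ 2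
    rw [Finset.sum_congr rfl fun ρ _ => hηDP ρ, ← Complex.ofReal_sum, Complex.norm_real,
      Real.norm_of_nonneg (Finset.sum_nonneg fun _ _ => norm_nonneg _)]
    calc (Z.card : ℝ) * V = ∑ _ρ ∈ Z, V := by rw [Finset.sum_const, nsmul_eq_mul]
      _ ≤ _ := Finset.sum_le_sum hZV
  -- inner sums
  have h3 : ∀ ρ ∈ Z, ∑ ρ' ∈ Z, ‖∑ n ∈ Finset.Ioc Q (h * Q),
        (n : ℂ) ^ (-(((ρ.re + ρ'.re - 2 * b : ℝ) : ℂ) +
          ((ρ.im - ρ'.im : ℝ) : ℂ) * Complex.I))‖ ≤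
      h * Q + C * h * (h * Q) * (2 + 2 * Real.log (2 * T + 1)) + Z.card * (C * h * Real.sqrt W) := by
    intro ρ hρ
    rw [← Finset.add_sum_erase _ _ hρ]
    have h4 : ‖∑ n ∈ Finset.Ioc Q (h * Q), (n : ℂ) ^ (-(((ρ.re + ρ.re - 2 * b : ℝ) : ℂ) +
          ((ρ.im - ρ.im : ℝ) : ℂ) * Complex.I))‖ ≤ h * Q := by
      refine (norm_sum_le _ _).trans ?_
      have h5 : ∀ n ∈ Finset.Ioc Q (h * Q), ‖(n : ℂ) ^ (-(((ρ.re + ρ.re - 2 * b : ℝ) : ℂ) +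
          ((ρ.im - ρ.im : ℝ) : ℂ) * Complex.I))‖ ≤ 1 := by
        intro n hn
        have hn1 : 1 ≤ n := by
          have := (Finset.mem_Ioc.1 hn).1
          omega
        have hn0 : (0 : ℝ) < n := by exact_mod_cast hn1
        have h6 := Complex.norm_cpow_eq_rpow_re_of_pos hn0
          (-(((ρ.re + ρ.re - 2 * b : ℝ) : ℂ) + ((ρ.im - ρ.im : ℝ) : ℂ) * Complex.I))
        have h7 : ((n : ℝ) : ℂ) = (n : ℂ) := by push_cast; rfl
        rw [h7] at h6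
        rw [h6]
        refine Real.rpow_le_one_of_one_le_of_nonpos (by exact_mod_cast hn1) ?_
        have := (hZs ρ hρ).1
        simp
        linarith
      refine (Finset.sum_le_sum h5).trans ?_
      rw [Finset.sum_const, Nat.card_Ioc, nsmul_eq_mul, mul_one]
      have : h * Q - Q ≤ h * Q := Nat.sub_le _ _
      exact_mod_cast this
    have h5 : ∑ ρ' ∈ Z.erase ρ, ‖∑ n ∈ Finset.Ioc Q (h * Q),
        (n : ℂ) ^ (-(((ρ.re + ρ'.re - 2 * b : ℝ) : ℂ) +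
          ((ρ.im - ρ'.im : ℝ) : ℂ) * Complex.I))‖ ≤
        ∑ ρ' ∈ Z.erase ρ, (C * h * (h * Q) * (1 / |ρ.im - ρ'.im|) + C * h * Real.sqrt W) := by
      refine Finset.sum_le_sum fun ρ' hρ' => ?_
      rw [Finset.mem_erase] at hρ'
      have h6 := hZ ρ hρ ρ' hρ'.2 (Ne.symm hρ'.1)
      have a1 := (hZs ρ hρ).1
      have a2 := (hZs ρ hρ).2.1
      have a3 := (hZs ρ' hρ'.2).1
      have a4 := (hZs ρ' hρ'.2).2.1
      have h7 := hC h Q (ρ.im - ρ'.im) (ρ.re + ρ'.re - 2 * b) hh hQ h6 (by linarith) (by linarith)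
      refine h7.trans ?_
      have h8 : Real.sqrt |ρ.im - ρ'.im| ≤ Real.sqrt W :=
        Real.sqrt_le_sqrt (hW ρ hρ ρ' hρ'.2)
      have h9 : C * h * Real.sqrt |ρ.im - ρ'.im| ≤ C * h * Real.sqrt W :=
        mul_le_mul_of_nonneg_left h8 (by positivity)
      have h10 : C * h * (h * Q / |ρ.im - ρ'.im| + Real.sqrt |ρ.im - ρ'.im|) =
          C * h * (h * Q) * (1 / |ρ.im - ρ'.im|) + C * h * Real.sqrt |ρ.im - ρ'.im| := by ring
      rw [h10]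
      linarith
    have h6 := spaced_sum Z T hT hZ (fun ρ hρ => (hZs ρ hρ).2.2) ρ hρ
    rw [Finset.sum_add_distrib, ← Finset.mul_sum, Finset.sum_const, nsmul_eq_mul] at h5
    have h7 : ((Z.erase ρ).card : ℝ) ≤ Z.card := by
      exact_mod_cast Finset.card_le_card (Finset.erase_subset _ _)
    have h8 : C * h * (h * Q) * ∑ ρ' ∈ Z.erase ρ, 1 / |ρ.im - ρ'.im| ≤
        C * h * (h * Q) * (2 + 2 * Real.log (2 * T + 1)) :=
      mul_le_mul_of_nonneg_left h6 (by positivity)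
    have h9 : ((Z.erase ρ).card : ℝ) * (C * h * Real.sqrt W) ≤ Z.card * (C * h * Real.sqrt W) :=
      mul_le_mul_of_nonneg_right h7 (by positivity)
    linarith
  have h4 := Finset.sum_le_sum h3
  rw [Finset.sum_const, nsmul_eq_mul] at h4
  have h5 : (Z.card * V) ^ 2 ≤ K * (Z.card * (h * Q + C * h * (h * Q) *
      (2 + 2 * Real.log (2 * T + 1)) + Z.card * (C * h * Real.sqrt W))) :=
    (h2.trans h1).trans (mul_le_mul_of_nonneg_left h4 hK0)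
  have hlog2 : Real.log (2 * T + 1) ≤ 2 * Real.log (T + 2) := by
    have h6 : Real.log ((T + 2) ^ 2) = 2 * Real.log (T + 2) := by
      rw [Real.log_pow]; norm_num
    rw [← h6]
    exact Real.log_le_log (by linarith) (by nlinarith)
  have h6 : h * Q + C * h * (h * Q) * (2 + 2 * Real.log (2 * T + 1)) ≤
      (h * Q) * ((1 + 6 * C * h) * Real.log (T + 2)) := by
    have h7 : 0 ≤ (h : ℝ) * Q := by positivity
    have h8 : 0 ≤ C * h := by positivity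
    have h9 : 1 + C * h * (2 + 2 * Real.log (2 * T + 1)) ≤ (1 + 6 * C * h) * Real.log (T + 2) := by
      have h10 : C * h * (2 + 2 * Real.log (2 * T + 1)) ≤ C * h * (6 * Real.log (T + 2)) :=
        mul_le_mul_of_nonneg_left (by linarith) h8
      nlinarith
    calc _ = (h * Q : ℝ) * (1 + C * h * (2 + 2 * Real.log (2 * T + 1))) := by ring
      _ ≤ _ := mul_le_mul_of_nonneg_left h9 h7
  -- divide
  have h7 : (Z.card : ℝ) ^ 2 * V ^ 2 / 2 ≤ K * Z.card * ((h * Q) * ((1 + 6 * C * h) *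
      Real.log (T + 2))) := by
    have h8 : K * (Z.card * (Z.card * (C * h * Real.sqrt W))) ≤ (Z.card : ℝ) ^ 2 * (V ^ 2 / 2) := by
      calc K * (Z.card * (Z.card * (C * h * Real.sqrt W))) =
            (Z.card : ℝ) ^ 2 * (K * (C * h * Real.sqrt W)) := by ring
        _ ≤ _ := mul_le_mul_of_nonneg_left hWV (by positivity)
    have h9 : K * Z.card * (h * Q + C * h * (h * Q) * (2 + 2 * Real.log (2 * T + 1))) ≤
        K * Z.card * ((h * Q) * ((1 + 6 * C * h) * Real.log (T + 2))) :=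
      mul_le_mul_of_nonneg_left h6 (by positivity)
    nlinarith
  have h8 : (Z.card : ℝ) * V ^ 2 ≤ 2 * K * ((h * Q) * ((1 + 6 * C * h) * Real.log (T + 2))) := by
    have h9 : (Z.card : ℝ) * ((Z.card : ℝ) * V ^ 2) ≤
        Z.card * (2 * K * ((h * Q) * ((1 + 6 * C * h) * Real.log (T + 2)))) := by nlinarith
    exact le_of_mul_le_mul_left h9 hZpos
  have h10 : K * Q = B ^ 2 * h * (Q : ℝ) ^ (2 - 2 * b) := by
    rw [hK, show (2 - 2 * b) = (1 - 2 * b) + 1 by ring, Real.rpow_add hQ0, Real.rpow_one]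
    ring
  have hV2 : 0 < V ^ 2 := by positivity
  rw [← sub_nonneg]
  have h11 : 2 * (h : ℝ) ^ 2 * (1 + 6 * C * h) * (B ^ 2 * (Q : ℝ) ^ (2 - 2 * b) / V ^ 2) *
      Real.log (T + 2) - Z.card =
      (2 * K * ((h * Q) * ((1 + 6 * C * h) * Real.log (T + 2))) - Z.card * V ^ 2) / V ^ 2 := by
    have : 2 * K * ((h * Q) * ((1 + 6 * C * h) * Real.log (T + 2))) =
        2 * (K * Q) * (h * ((1 + 6 * C * h) * Real.log (T + 2))) := by ring
    rw [this, h10]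
    field_simp
  rw [h11]
  exact div_nonneg (by linarith) hV2.le

/-- KC-4 -/
theorem huxleyCount (hA2 : A2) : HuxleyCount := by
  obtain ⟨C, hC0, hC⟩ := expsum_bound hA2
  intro h hh
  have hh0 : (1 : ℝ) ≤ h := by exact_mod_cast hh
  refine ⟨2 * h ^ 2 * (1 + 6 * C * h) * (1 + 8 * C ^ 2 * h ^ 4), by positivity, ?_⟩
  intro Z g Q B V b b' T hQ hT hb hbb hb1 hb2 hV hB hg hZs hZ hZV
  have hQ0 : (0 : ℝ) < Q := by exact_mod_cast hQ
  have hlog3 : 1 ≤ Real.log (T + 2) := by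
    rw [Real.le_log_iff_exp_le (by linarith)]
    have := Real.exp_one_lt_d9
    linarith
  set K : ℝ := B ^ 2 * h * (Q : ℝ) ^ (1 - 2 * b) with hK
  have hK0 : 0 < K := by positivity
  set w : ℝ := V ^ 2 / (2 * K * (C * h)) with hw
  have hw0 : 0 < w := by positivity
  set W : ℝ := w ^ 2 with hW
  have hW0 : 0 < W := by positivity
  have hsW : Real.sqrt W = w := Real.sqrt_sq hw0.le
  have hKW : K * (C * h * Real.sqrt W) ≤ V ^ 2 / 2 := by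
    rw [hsW, hw]
    apply le_of_eq
    field_simp
  set M : ℝ := 2 * h ^ 2 * (1 + 6 * C * h) * (B ^ 2 * (Q : ℝ) ^ (2 - 2 * b) / V ^ 2) *
      Real.log (T + 2) with hM
  have hM0 : 0 ≤ M := by
    have : 0 ≤ Real.log (T + 2) := by linarith
    positivity
  have hmaps : ∀ ρ ∈ Z, ⌊(ρ.im + T) / W⌋₊ ∈ Finset.range (⌊2 * T / W⌋₊ + 1) := by
    intro ρ hρ
    rw [Finset.mem_range, Nat.lt_succ_iff]
    apply Nat.floor_le_floor
    have := (abs_le.1 (hZs ρ hρ).2.2).2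
    gcongr
    linarith
  have hfib : ∀ k ∈ Finset.range (⌊2 * T / W⌋₊ + 1),
      ((Z.filter (fun ρ => ⌊(ρ.im + T) / W⌋₊ = k)).card : ℝ) ≤ M := by
    intro k _
    refine window hC0 hC h hh _ g Q B V b b' T W hQ hT hb hb1 hV hg ?_ ?_ ?_ ?_ hKW
    · intro ρ hρ
      exact hZs ρ (Finset.mem_filter.1 hρ).1
    · intro ρ hρ ρ' hρ' hne
      exact hZ ρ (Finset.mem_filter.1 hρ).1 ρ' (Finset.mem_filter.1 hρ').1 hne
    · intro ρ hρ
      exact hZV ρ (Finset.mem_filter.1 hρ).1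
    · intro ρ hρ ρ' hρ'
      obtain ⟨a1, a2⟩ := Finset.mem_filter.1 hρ
      obtain ⟨b1, b2⟩ := Finset.mem_filter.1 hρ'
      have a3 := (abs_le.1 (hZs ρ a1).2.2).1
      have b3 := (abs_le.1 (hZs ρ' b1).2.2).1
      have a4 : 0 ≤ (ρ.im + T) / W := div_nonneg (by linarith) hW0.le
      have b4 : 0 ≤ (ρ'.im + T) / W := div_nonneg (by linarith) hW0.le
      have a5 := Nat.floor_le a4
      have a6 := Nat.lt_floor_add_one ((ρ.im + T) / W)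
      have b5 := Nat.floor_le b4
      have b6 := Nat.lt_floor_add_one ((ρ'.im + T) / W)
      rw [a2, le_div_iff₀ hW0] at a5
      rw [a2, div_lt_iff₀ hW0] at a6
      rw [b2, le_div_iff₀ hW0] at b5
      rw [b2, div_lt_iff₀ hW0] at b6
      rw [abs_le]
      constructor <;> nlinarith
  have hcard : (Z.card : ℝ) ≤ ((⌊2 * T / W⌋₊ : ℝ) + 1) * M := by
    rw [Finset.card_eq_sum_card_fiberwise hmaps]
    push_cast
    refine (Finset.sum_le_sum hfib).trans ?_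
    rw [Finset.sum_const, Finset.card_range, nsmul_eq_mul]
    push_cast
    exact le_refl _
  have hfl : (⌊2 * T / W⌋₊ : ℝ) ≤ 2 * T / W := Nat.floor_le (by positivity)
  have hTW : 2 * T / W = 8 * C ^ 2 * h ^ 4 * (T * (B ^ 4 * (Q : ℝ) ^ (2 - 4 * b) / V ^ 4)) := by
    have h1 : ((Q : ℝ) ^ (1 - 2 * b)) ^ 2 = (Q : ℝ) ^ (2 - 4 * b) := by
      rw [← Real.rpow_natCast, ← Real.rpow_mul hQ0.le]
      congr 1
      push_cast
      ring
    rw [hW, hw, ← h1, hK]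
    have hq : (Q : ℝ) ^ (1 - 2 * b) ≠ 0 := (Real.rpow_pos_of_pos hQ0 _).ne'
    have hhne : (h : ℝ) ≠ 0 := by linarith
    field_simp
    ring
  set R : ℝ := T * (B ^ 4 * (Q : ℝ) ^ (2 - 4 * b) / V ^ 4) with hR
  have hR0 : 0 ≤ R := by positivity
  have hfin : ((⌊2 * T / W⌋₊ : ℝ) + 1) ≤ (1 + 8 * C ^ 2 * h ^ 4) * (1 + R) := by
    rw [hTW] at hfl
    have h1 : 0 ≤ 8 * C ^ 2 * (h : ℝ) ^ 4 := by positivity
    rw [hTW]
    nlinarith
  calc (Z.card : ℝ) ≤ ((⌊2 * T / W⌋₊ : ℝ) + 1) * M := hcard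
    _ ≤ ((1 + 8 * C ^ 2 * h ^ 4) * (1 + R)) * M := mul_le_mul_of_nonneg_right hfin hM0
    _ = _ := by rw [hM]; ring

end Pool.Agent.Helper72.KC
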